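import Mathlib

set_option autoImplicit false

/-!
# Numbers with few binary ones are numbers of chains of posets of width two

Let `N` be an integer whose binary expansion has `k ≥ 2` ones and which is divisible by `2 ^ (k - 2)`, or a power of two,
`N ≥ 8`. Then there is a finite poset of width exactly two with exactly `N` chains (the empty chain included). So for
every `q ≥ 1` all the numbers `2 ^ k q`, `k` large, are numbers of chains.

The poset: two chains `l_0 < ... < l_(t-1)` and `r_0 < ... < r_(m-1)`, with `l_i < r_j` iff `i < s_j`, where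
`s_0 ≤ ... ≤ s_(m-1) ≤ t`. It has `2 ^ t + ∑ i, 2 ^ (m - 1 - i + s_i)` chains.
-/

namespace Pool.Agent.Results.MP_603bb3_co.FewBinaryOnes

open Finset

/-- `P` has width exactly two: there are two incomparable elements, but no three pairwise incomparable ones. -/
def WidthTwo (P : Type) [PartialOrder P] : Prop :=
  (∃ x y : P, ¬ x ≤ y ∧ ¬ y ≤ x) ∧ ∀ x y z : P, x ≤ y ∨ y ≤ x ∨ x ≤ z ∨ z ≤ x ∨ y ≤ z ∨ z ≤ y

/-- `n` is the number of nonempty chains of a finite poset of width exactly two. -/
def IsChainCount (n : ℕ) : Prop :=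
  ∃ (P : Type) (_ : PartialOrder P), Finite P ∧ WidthTwo P ∧
    {S : Set P | S.Nonempty ∧ IsChain (· ≤ ·) S}.ncard = n

/-- the poset -/
inductive Pos (t m : ℕ) (s : Fin m → ℕ) : Type
  | l : Fin t → Pos t m s
  | r : Fin m → Pos t m s

variable {t m : ℕ} {s : Fin m → ℕ}

/-- the order -/
def Pos.le : Pos t m s → Pos t m s → Prop
  | .l i, .l j => i ≤ j
  | .r i, .r j => i ≤ j
  | .l i, .r j => (i : ℕ) < s j
  | .r _, .l _ => False

/-- the partial order -/
def Pos.order (hs : Monotone s) : PartialOrder (Pos t m s) where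
  le := Pos.le
  le_refl := by rintro (i | i) <;> exact le_refl i
  le_trans := by
    rintro (i | i) (j | j) (k | k) h1 h2
    · exact le_trans (α := Fin t) h1 h2
    · exact lt_of_le_of_lt (show (i : ℕ) ≤ j from h1) h2
    · exact h2.elim
    · exact lt_of_lt_of_le (show (i : ℕ) < s j from h1) (hs h2)
    · exact h1.elim
    · exact h1.elim
    · exact h2.elim
    · exact le_trans (α := Fin m) h1 h2
  le_antisymm := by
    rintro (i | i) (j | j) h1 h2
    · exact congrArg Pos.l (le_antisymm (α := Fin t) h1 h2)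
    · exact h2.elim
    · exact h1.elim
    · exact congrArg Pos.r (le_antisymm (α := Fin m) h1 h2)

/-- the pairs of sets of indices that are chains -/
def pairs (t m : ℕ) (s : Fin m → ℕ) : Finset (Finset (Fin t) × Finset (Fin m)) :=
  univ.filter fun p => ∀ i ∈ p.1, ∀ j ∈ p.2, (i : ℕ) < s j

theorem card_pairs (hs : Monotone s) (hst : ∀ j, s j ≤ t) :
    #(pairs t m s) = 2 ^ t + ∑ j : Fin m, 2 ^ (m - 1 - (j : ℕ) + s j) := by
  classical
  have key : pairs t m s = ((univ : Finset (Finset (Fin t))) ×ˢ {(∅ : Finset (Fin m))}) ∪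
      (univ : Finset (Fin m)).biUnion fun j => (univ.filter fun i : Fin t => (i : ℕ) < s j).powerset ×ˢ
        ((Ioi j).powerset.image (insert j)) := by
    ext ⟨A, B⟩
    simp only [pairs, mem_filter, mem_univ, true_and, mem_union, mem_product, mem_singleton, mem_biUnion, mem_powerset,
      mem_image]
    constructor
    · intro h
      rcases B.eq_empty_or_nonempty with hB | hB
      · exact Or.inl hB
      · right
        refine ⟨B.min' hB, fun i hi => ?_, B.erase (B.min' hB), fun k hk => ?_, insert_erase (B.min'_mem hB)⟩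
        · rw [mem_filter]
          exact ⟨mem_univ _, h i hi _ (B.min'_mem hB)⟩
        · rw [mem_Ioi]
          exact lt_of_le_of_ne (B.min'_le _ (mem_of_mem_erase hk)) (ne_of_mem_erase hk).symm
    · rintro (rfl | ⟨j, hA, C, hC, rfl⟩) i hi k hk
      · exact absurd hk (notMem_empty _)
      · have h1 := (mem_filter.1 (hA hi)).2
        rw [mem_insert] at hk
        rcases hk with rfl | hk
        · exact h1
        · exact lt_of_lt_of_le h1 (hs (mem_Ioi.1 (hC hk)).le)
  have hmem : ∀ (j : Fin m) (B : Finset (Fin m)), B ∈ (Ioi j).powerset.image (insert j) →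
      j ∈ B ∧ ∀ k ∈ B, j ≤ k := by
    intro j B hB
    obtain ⟨C, hC, rfl⟩ := mem_image.1 hB
    rw [mem_powerset] at hC
    refine ⟨mem_insert_self _ _, fun k hk => ?_⟩
    rw [mem_insert] at hk
    rcases hk with rfl | hk
    · exact le_rfl
    · exact (mem_Ioi.1 (hC hk)).le
  rw [key, card_union_of_disjoint, card_product, card_singleton, mul_one, card_univ, Fintype.card_finset,
    Fintype.card_fin, card_biUnion]
  · congr 1
    refine sum_congr rfl fun j _ => ?_
    rw [card_product, card_powerset, card_image_of_injOn, card_powerset, Fin.card_Ioi, pow_add, mul_comm]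
    · congr 2
      have h1 : (univ.filter fun i : Fin t => (i : ℕ) < s j).map Fin.valEmbedding = range (s j) := by
        ext x
        simp only [mem_map, mem_filter, mem_univ, true_and, Fin.valEmbedding_apply, mem_range]
        constructor
        · rintro ⟨i, hi, rfl⟩
          exact hi
        · intro hx
          exact ⟨⟨x, lt_of_lt_of_le hx (hst j)⟩, hx, rfl⟩
      rw [← card_map Fin.valEmbedding, h1, card_range]
    · intro C hC D hD h
      rw [mem_coe, mem_powerset] at hC hD
      have hjC : j ∉ C := fun hj => lt_irrefl _ (mem_Ioi.1 (hC hj))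
      have hjD : j ∉ D := fun hj => lt_irrefl _ (mem_Ioi.1 (hD hj))
      rw [← erase_insert hjC, ← erase_insert hjD]
      exact congrArg (fun B : Finset (Fin m) => B.erase j) h
  · intro j _ k _ hjk
    rw [Function.onFun, disjoint_left]
    rintro ⟨A, B⟩ h1 h2
    rw [mem_product] at h1 h2
    exact hjk (le_antisymm ((hmem j B h1.2).2 k (hmem k B h2.2).1) ((hmem k B h2.2).2 j (hmem j B h1.2).1))
  · rw [disjoint_left]
    rintro ⟨A, B⟩ h1 h2
    rw [mem_product, mem_singleton] at h1
    rw [mem_biUnion] at h2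
    obtain ⟨j, -, h2⟩ := h2
    rw [mem_product] at h2
    have := (hmem j B h2.2).1
    rw [show B = ∅ from h1.2] at this
    exact absurd this (notMem_empty _)

/-- the chain given by two sets of indices -/
def toSet (p : Finset (Fin t) × Finset (Fin m)) : Set (Pos t m s) :=
  {x | (∃ i ∈ p.1, x = .l i) ∨ ∃ j ∈ p.2, x = .r j}

theorem toSet_inj : Function.Injective (toSet (t := t) (m := m) (s := s)) := by
  intro p q h
  have h1 : ∀ i, i ∈ p.1 ↔ i ∈ q.1 := by
    intro i
    have := Set.ext_iff.1 h (.l i)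
    simpa [toSet] using this
  have h2 : ∀ i, i ∈ p.2 ↔ i ∈ q.2 := by
    intro i
    have := Set.ext_iff.1 h (.r i)
    simpa [toSet] using this
  exact Prod.ext (Finset.ext h1) (Finset.ext h2)

theorem count (hs : Monotone s) (hst : ∀ j, s j ≤ t) (hm : 0 < m) (h0 : s ⟨0, hm⟩ < t) :
    ∀ n, n + 1 = 2 ^ t + ∑ j : Fin m, 2 ^ (m - 1 - (j : ℕ) + s j) → IsChainCount n := by
  classical
  intro n hn
  letI := Pos.order (t := t) hs
  have hle : ∀ x y : Pos t m s, x ≤ y ↔ Pos.le x y := fun x y => Iff.rfl
  have hfin : Finite (Pos t m s) := by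
    refine Finite.of_surjective (α := Fin t ⊕ Fin m) (fun x => Sum.elim Pos.l Pos.r x) ?_
    rintro (i | i)
    · exact ⟨Sum.inl i, rfl⟩
    · exact ⟨Sum.inr i, rfl⟩
  refine ⟨Pos t m s, Pos.order hs, hfin, ⟨⟨.l ⟨t - 1, by omega⟩, .r ⟨0, hm⟩, ?_, fun h => h⟩, ?_⟩, ?_⟩
  · intro h
    have h' : t - 1 < s ⟨0, hm⟩ := h
    omega
  · have hl : ∀ i j : Fin t, (Pos.l i : Pos t m s) ≤ .l j ∨ (Pos.l j : Pos t m s) ≤ .l i := fun i j => le_total i j
    have hr : ∀ i j : Fin m, (Pos.r i : Pos t m s) ≤ .r j ∨ (Pos.r j : Pos t m s) ≤ .r i := fun i j => le_total i j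
    rintro (x | x) (y | y) (z | z)
    · have := hl x y; tauto
    · have := hl x y; tauto
    · have := hl x z; tauto
    · have := hr y z; tauto
    · have := hl y z; tauto
    · have := hr x z; tauto
    · have := hr x y; tauto
    · have := hr x y; tauto
  · have h1 : {S : Set (Pos t m s) | IsChain (· ≤ ·) S} = toSet '' (pairs t m s : Set _) := by
      ext S
      rw [Set.mem_image]
      constructor
      · intro hS
        refine ⟨(univ.filter fun i => Pos.l i ∈ S, univ.filter fun j => Pos.r j ∈ S), ?_, ?_⟩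
        · rw [mem_coe, pairs, mem_filter]
          refine ⟨mem_univ _, fun i hi j hj => ?_⟩
          have h1 := (mem_filter.1 hi).2
          have h2 := (mem_filter.1 hj).2
          rcases hS h1 h2 (by simp) with h | h
          · exact h
          · exact (show False from h).elim
        · ext x
          rcases x with i | i
          · simp [toSet]
          · simp [toSet]
      · rintro ⟨⟨A, B⟩, hp, rfl⟩
        rw [mem_coe, pairs, mem_filter] at hp
        have hp' := hp.2
        rintro x (⟨i, hi, rfl⟩ | ⟨i, hi, rfl⟩) y (⟨j, hj, rfl⟩ | ⟨j, hj, rfl⟩) -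
        · exact le_total i j
        · exact Or.inl (hp' i hi j hj)
        · exact Or.inr (hp' j hj i hi)
        · exact le_total i j
    have h2 : {S : Set (Pos t m s) | IsChain (· ≤ ·) S}.ncard = n + 1 := by
      rw [h1, Set.ncard_image_of_injective _ toSet_inj, Set.ncard_coe_finset, card_pairs hs hst, hn]
    have h3 : {S : Set (Pos t m s) | IsChain (· ≤ ·) S} = insert ∅ {S | S.Nonempty ∧ IsChain (· ≤ ·) S} := by
      ext S
      rcases S.eq_empty_or_nonempty with rfl | hS
      · simp [IsChain]
      · simp [hS, hS.ne_empty]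
    rw [h3, Set.ncard_insert_of_notMem (by simp) (Set.toFinite _)] at h2
    omega

/-- (1) Let `E` be a set of at least two natural numbers, each of them at least `|E| - 2`. There is a finite poset of
width exactly two with exactly `∑ e ∈ E, 2 ^ e` chains, the empty chain included. (2) The same is true for
`2 ^ k`, `k ≥ 3`. -/
theorem result :
    (∀ (E : Finset ℕ) (n : ℕ), 2 ≤ #E → (∀ e ∈ E, #E ≤ e + 2) → n + 1 = ∑ e ∈ E, 2 ^ e → IsChainCount n) ∧
    ∀ k n : ℕ, 3 ≤ k → n + 1 = 2 ^ k → IsChainCount n := by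
  classical
  constructor
  · intro E n hE hmin hn
    have hne : E.Nonempty := card_pos.1 (by omega)
    obtain ⟨t, ht⟩ : ∃ t, t = E.max' hne := ⟨_, rfl⟩
    have htE : t ∈ E := ht ▸ E.max'_mem hne
    obtain ⟨m, hm⟩ : ∃ m, #(E.erase t) = m := ⟨_, rfl⟩
    have hmE : #E = m + 1 := by rw [← hm, card_erase_of_mem htE]; omega
    have hf : ∀ i : Fin m, (E.erase t).orderEmbOfFin hm i ∈ E.erase t := fun i => orderEmbOfFin_mem _ hm i
    have hft : ∀ i : Fin m, (E.erase t).orderEmbOfFin hm i < t := by
      intro i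
      have h1 := hf i
      rw [mem_erase] at h1
      exact lt_of_le_of_ne (ht ▸ E.le_max' _ h1.2) h1.1
    have hfm : ∀ i : Fin m, m - 1 - (i : ℕ) ≤ (E.erase t).orderEmbOfFin hm i := by
      intro i
      have := hmin _ (mem_of_mem_erase (hf i))
      omega
    have hsum : ∑ e ∈ E, 2 ^ e = 2 ^ t + ∑ i : Fin m, 2 ^ ((E.erase t).orderEmbOfFin hm i) := by
      rw [← add_sum_erase E _ htE]
      congr 1
      conv_lhs => rw [← image_orderEmbOfFin_univ (E.erase t) hm]
      rw [sum_image fun i _ j _ h => ((E.erase t).orderEmbOfFin hm).injective h]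
    refine count (t := t) (m := m) (s := fun i => (E.erase t).orderEmbOfFin hm i - (m - 1 - (i : ℕ))) ?_ ?_ (by omega) ?_
      n ?_
    · intro i j hij
      have h1 : (E.erase t).orderEmbOfFin hm i ≤ (E.erase t).orderEmbOfFin hm j :=
        ((E.erase t).orderEmbOfFin hm).monotone hij
      have h2 : (i : ℕ) ≤ j := hij
      show (E.erase t).orderEmbOfFin hm i - (m - 1 - (i : ℕ)) ≤ (E.erase t).orderEmbOfFin hm j - (m - 1 - (j : ℕ))
      omega
    · intro j
      have := hft j
      show (E.erase t).orderEmbOfFin hm j - (m - 1 - (j : ℕ)) ≤ t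
      omega
    · have := hft ⟨0, by omega⟩
      show (E.erase t).orderEmbOfFin hm ⟨0, by omega⟩ - (m - 1 - 0) < t
      omega
    · rw [hn, hsum]
      congr 1
      refine sum_congr rfl fun i _ => ?_
      congr 1
      have := hfm i
      omega
  · intro k n hk hn
    refine count (t := k - 1) (m := 2) (s := fun i => k - 3 + (i : ℕ)) ?_ ?_ (by omega) ?_ n ?_
    · intro i j hij
      have : (i : ℕ) ≤ j := hij
      show k - 3 + (i : ℕ) ≤ k - 3 + (j : ℕ)
      omega
    · intro j
      show k - 3 + (j : ℕ) ≤ k - 1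
      omega
    · show k - 3 + 0 < k - 1
      omega
    · rw [hn, Fin.sum_univ_two]
      obtain ⟨c, rfl⟩ : ∃ c, k = c + 3 := ⟨k - 3, by omega⟩
      have e1 : c + 3 - 1 = c + 2 := by omega
      have e2 : 2 - 1 - ((0 : Fin 2) : ℕ) + (c + 3 - 3 + ((0 : Fin 2) : ℕ)) = c + 1 := by
        show 2 - 1 - 0 + (c + 3 - 3 + 0) = c + 1
        omega
      have e3 : 2 - 1 - ((1 : Fin 2) : ℕ) + (c + 3 - 3 + ((1 : Fin 2) : ℕ)) = c + 1 := by
        show 2 - 1 - 1 + (c + 3 - 3 + 1) = c + 1
        omega
      rw [e1, e2, e3]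
      ring

end Pool.Agent.Results.MP_603bb3_co.FewBinaryOnes
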